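import Mathlib

set_option autoImplicit false

namespace Pool.Agent.H.MP_440a65_co

open Finset

variable {V : Type} [Fintype V] [DecidableEq V]

open Classical in
/-- neighbours -/
noncomputable def nb (G : SimpleGraph V) (v : V) : Finset V := univ.filter (G.Adj v)

lemma mem_nb {G : SimpleGraph V} {v w : V} : w ∈ nb G v ↔ G.Adj v w := by
  simp [nb]

noncomputable def dg (G : SimpleGraph V) (v : V) : ℕ := (nb G v).card

def add {V : Type} (G : SimpleGraph V) (p q : V) : SimpleGraph V where
  Adj u v := G.Adj u v ∨ (u ≠ v ∧ ((u = p ∧ v = q) ∨ (u = q ∧ v = p)))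
  symm := ⟨fun u v h => by
    rcases h with h | ⟨h, h'⟩
    · exact Or.inl h.symm
    · exact Or.inr ⟨h.symm, by tauto⟩⟩
  loopless := ⟨fun u h => by
    rcases h with h | ⟨h, _⟩
    · exact G.irrefl h
    · exact h rfl⟩

def del {V : Type} (G : SimpleGraph V) (p q : V) : SimpleGraph V where
  Adj u v := G.Adj u v ∧ ¬ ((u = p ∧ v = q) ∨ (u = q ∧ v = p))
  symm := ⟨fun u v h => ⟨h.1.symm, by have := h.2; tauto⟩⟩
  loopless := ⟨fun u h => G.irrefl h.1⟩

lemma add_adj {V : Type} {G : SimpleGraph V} {p q u v : V} :
    (add G p q).Adj u v ↔ G.Adj u v ∨ (u ≠ v ∧ ((u = p ∧ v = q) ∨ (u = q ∧ v = p))) := Iff.rfl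

lemma del_adj {V : Type} {G : SimpleGraph V} {p q u v : V} :
    (del G p q).Adj u v ↔ G.Adj u v ∧ ¬ ((u = p ∧ v = q) ∨ (u = q ∧ v = p)) := Iff.rfl

lemma dg_add {G : SimpleGraph V} {p q : V} (h : ¬ G.Adj p q) (hpq : p ≠ q) (v : V) :
    (dg (add G p q) v : ℤ) = dg G v + (if v = p then 1 else 0) + (if v = q then 1 else 0) := by
  by_cases h1 : v = p
  · subst h1
    have : nb (add G v q) v = insert q (nb G v) := by
      ext w; rw [mem_nb, add_adj, mem_insert, mem_nb]
      constructor
      · rintro (h | ⟨_, h | h⟩)
        · exact Or.inr h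
        · exact Or.inl h.2
        · exact absurd h.1 hpq
      · rintro (h | h)
        · subst h; exact Or.inr ⟨hpq, Or.inl ⟨rfl, rfl⟩⟩
        · exact Or.inl h
    unfold dg
    rw [this, card_insert_of_notMem (by rwa [mem_nb])]
    simp [hpq]
  · by_cases h2 : v = q
    · subst h2
      have : nb (add G p v) v = insert p (nb G v) := by
        ext w; rw [mem_nb, add_adj, mem_insert, mem_nb]
        constructor
        · rintro (h | ⟨_, h | h⟩)
          · exact Or.inr h
          · exact absurd h.1 h1
          · exact Or.inl h.2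
        · rintro (h | h)
          · subst h; exact Or.inr ⟨h1, Or.inr ⟨rfl, rfl⟩⟩
          · exact Or.inl h
      unfold dg
      rw [this, card_insert_of_notMem (by rw [mem_nb]; exact fun h' => h h'.symm)]
      simp [h1]
    · have : nb (add G p q) v = nb G v := by
        ext w; simp only [mem_nb, add_adj]; tauto
      unfold dg
      rw [this]; simp [h1, h2]

lemma dg_del {G : SimpleGraph V} {p q : V} (h : G.Adj p q) (v : V) :
    (dg (del G p q) v : ℤ) = dg G v - (if v = p then 1 else 0) - (if v = q then 1 else 0) := by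
  have e : add (del G p q) p q = G := by
    ext u w
    simp only [add_adj, del_adj]
    constructor
    · rintro (h' | ⟨_, h' | h'⟩)
      · exact h'.1
      · rw [h'.1, h'.2]; exact h
      · rw [h'.1, h'.2]; exact h.symm
    · intro h'
      by_cases hh : ((u = p ∧ w = q) ∨ (u = q ∧ w = p))
      · exact Or.inr ⟨h'.ne, hh⟩
      · exact Or.inl ⟨h', hh⟩
  have := dg_add (G := del G p q) (p := p) (q := q) (by simp [del_adj]) h.ne v
  rw [e] at this
  linarith

lemma exists_nb {G : SimpleGraph V} {i r : V} (hne : i ≠ r) (h : dg G r < dg G i) :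
    ∃ u, G.Adj i u ∧ ¬ G.Adj r u ∧ u ≠ r := by
  by_contra hc
  push Not at hc
  by_cases ha : G.Adj i r
  · have hs : (nb G i).erase r ⊆ (nb G r).erase i := by
      intro u hu
      rw [mem_erase, mem_nb] at hu ⊢
      refine ⟨fun e => G.irrefl (e ▸ hu.2), ?_⟩
      by_contra h'
      exact hu.1 (hc u hu.2 h')
    have := card_le_card hs
    rw [card_erase_of_mem (mem_nb.2 ha), card_erase_of_mem (mem_nb.2 ha.symm)] at this
    have h1 : 0 < dg G r := card_pos.2 ⟨i, mem_nb.2 ha.symm⟩
    unfold dg at h h1
    omega
  · have hs : nb G i ⊆ nb G r := by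
      intro u hu
      rw [mem_nb] at hu ⊢
      by_contra h'
      exact ha ((hc u hu h') ▸ hu)
    have := card_le_card hs
    unfold dg at h
    omega

lemma sum_dg_even (G : SimpleGraph V) : Even (∑ v, dg G v) := by
  classical
  have : ∀ v, dg G v = G.degree v := by
    intro v
    unfold dg nb
    rw [← SimpleGraph.card_neighborFinset_eq_degree]
    congr 1
    ext w; simp
  simp only [this]
  rw [SimpleGraph.sum_degrees_eq_twice_card_edges]
  exact even_two_mul _

/-- the invariant -/
def Inv (d : V → ℕ) (R : Finset V) (r : V) (G : SimpleGraph V) : Prop :=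
  (∀ i ∈ R, dg G i = d i) ∧ (∀ i, dg G i ≤ d i) ∧
    (∀ i j, i ∉ R → j ∉ R → i ≠ r → j ≠ r → ¬ G.Adj i j)

lemma improve (d : V → ℕ) (hev : Even (∑ v, d v)) (R : Finset V) (r : V) (hr : r ∉ R)
    (htop : ∀ i ∈ R, d r ≤ d i)
    (hEG : ∑ i ∈ insert r R, d i ≤ (R.card + 1) * R.card +
      ∑ i ∈ (insert r R)ᶜ, min (R.card + 1) (d i))
    (G : SimpleGraph V) (hG : Inv d R r G) (hlt : dg G r < d r) :
    ∃ G', Inv d R r G' ∧ dg G r < dg G' r := by
  obtain ⟨h1, h2, h3⟩ := hG
  have hbig : ∀ i ∈ R, dg G r < dg G i := fun i hi => by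
    have := h1 i hi; have := htop i hi; omega
  have hne : ∀ i ∈ R, i ≠ r := fun i hi e => hr (e ▸ hi)
  by_cases c0 : ∃ i, i ≠ r ∧ ¬ G.Adj r i ∧ dg G i < d i
  · obtain ⟨i, hir, hna, hi⟩ := c0
    have hiR : i ∉ R := fun h => by have := h1 i h; omega
    have key := dg_add hna hir.symm
    refine ⟨add G r i, ⟨fun j hj => ?_, fun j => ?_, fun a b ha hb har hbr => ?_⟩, ?_⟩
    · have := key j; have := h1 j hj
      have e1 : j ≠ r := hne j hj
      have e2 : j ≠ i := fun e => hiR (e ▸ hj)
      simp only [e1, e2, if_false] at *; omega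
    · have t := key j; have := h2 j
      split_ifs at t
      all_goals first | omega | (subst_vars; first | omega | contradiction)
    · have := h3 a b ha hb har hbr
      simp only [add_adj]; tauto
    · have := key r; simp [hir.symm] at this; omega
  push Not at c0
  by_cases c1 : ∃ i ∈ R, ¬ G.Adj r i
  · obtain ⟨i, hi, hna⟩ := c1
    have hir := hne i hi
    obtain ⟨u, hiu, hru, hur⟩ := exists_nb hir (hbig i hi)
    have hui : u ≠ i := hiu.ne.symm
    have k1 := dg_del hiu
    have a2 : ¬ (del G i u).Adj u r := fun h => hru h.1.symm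
    have k2 := dg_add a2 hur
    have a3 : ¬ (add (del G i u) u r).Adj i r := by
      simp only [add_adj, del_adj]
      rintro (h | ⟨_, h | h⟩)
      · exact hna h.1.symm
      · exact hui h.1.symm
      · exact hir h.1
    have k3 := dg_add a3 hir
    have k4 : ∀ j, (dg (add (add (del G i u) u r) i r) j : ℤ) =
        dg G j + (if j = r then 2 else 0) := by
      intro j
      rw [k3, k2, k1]
      by_cases e1 : j = r <;> simp [e1] <;> ring
    by_cases hd : dg G r + 2 ≤ d r
    · refine ⟨add (add (del G i u) u r) i r, ⟨fun j hj => ?_, fun j => ?_,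
        fun a b ha hb har hbr => ?_⟩, ?_⟩
      · have := k4 j; have := h1 j hj
        simp only [hne j hj, if_false] at *; omega
      · have t := k4 j; have := h2 j
        split_ifs at t
        all_goals first | omega | (subst_vars; first | omega | contradiction)
      · have := h3 a b ha hb har hbr
        simp only [add_adj, del_adj]; tauto
      · have := k4 r; simp at this; omega
    · have hk : ∃ k, k ≠ r ∧ dg G k < d k := by
        by_contra hc
        push Not at hc
        have e : ∑ v, d v = ∑ v, (dg G v + if v = r then 1 else 0) := by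
          refine sum_congr rfl fun v _ => ?_
          by_cases e1 : v = r
          · subst e1; simp; omega
          · have := hc v e1; have := h2 v; simp [e1]; omega
        rw [sum_add_distrib] at e
        simp at e
        have := sum_dg_even G
        rw [e] at hev
        rw [Nat.even_add_one] at hev
        exact hev this
      obtain ⟨k, hkr, hk⟩ := hk
      have hrk : G.Adj r k := by
        by_contra h; have := c0 k hkr h; omega
      have hkR : k ∉ R := fun h => by have := h1 k h; omega
      have a5 : (add (add (del G i u) u r) i r).Adj r k := by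
        simp only [add_adj, del_adj]
        left; left
        refine ⟨hrk, ?_⟩
        rintro (h | h)
        · exact hir h.1.symm
        · exact hur h.1.symm
      have k5 := dg_del a5
      refine ⟨del (add (add (del G i u) u r) i r) r k, ⟨fun j hj => ?_, fun j => ?_,
        fun a b ha hb har hbr => ?_⟩, ?_⟩
      · have := k4 j; have := h1 j hj; have := k5 j
        have e2 : j ≠ k := fun e => hkR (e ▸ hj)
        simp only [hne j hj, e2, if_false] at *; omega
      · have t := k5 j; have := h2 j
        rw [k4] at t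
        split_ifs at t
        all_goals first | omega | (subst_vars; first | omega | contradiction)
      · have := h3 a b ha hb har hbr
        simp only [add_adj, del_adj]; tauto
      · have := k4 r; have := k5 r; simp [hkr.symm] at *; omega
  push Not at c1
  have hsub : ∀ k, k ∉ R → k ≠ r → nb G k ⊆ insert r R := by
    intro k hk hkr w hw
    rw [mem_nb] at hw
    by_contra h
    rw [mem_insert, not_or] at h
    exact h3 k w hk h.2 hkr h.1 hw
  have hcard : (insert r R).card = R.card + 1 := card_insert_of_notMem hr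
  by_cases c2 : ∃ k, k ∉ R ∧ k ≠ r ∧ dg G k < min (R.card + 1) (d k)
  · obtain ⟨k, hkR, hkr, hk⟩ := c2
    rw [lt_min_iff] at hk
    have hrk : G.Adj r k := by
      by_contra h; have := c0 k hkr h; omega
    have : ∃ i ∈ R, ¬ G.Adj k i := by
      by_contra hc
      push Not at hc
      have : insert r R ⊆ nb G k := by
        intro w hw
        rw [mem_insert] at hw
        rw [mem_nb]
        rcases hw with rfl | hw
        · exact hrk.symm
        · exact hc w hw
      have := card_le_card this
      unfold dg at hk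
      omega
    obtain ⟨i, hi, hki⟩ := this
    have hir := hne i hi
    obtain ⟨u, hiu, hru, hur⟩ := exists_nb hir (hbig i hi)
    have hui : u ≠ i := hiu.ne.symm
    have huk : u ≠ k := fun e => hru (e ▸ hrk)
    have hik : i ≠ k := fun e => hkR (e ▸ hi)
    have k1 := dg_del hiu
    have a2 : ¬ (del G i u).Adj u r := fun h => hru h.1.symm
    have k2 := dg_add a2 hur
    have a3 : ¬ (add (del G i u) u r).Adj i k := by
      simp only [add_adj, del_adj]
      rintro (h | ⟨_, h | h⟩)
      · exact hki h.1.symm
      · exact hui h.1.symm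
      · exact hir h.1
    have k3 := dg_add a3 hik
    have k4 : ∀ j, (dg (add (add (del G i u) u r) i k) j : ℤ) =
        dg G j + (if j = r then 1 else 0) + (if j = k then 1 else 0) := by
      intro j
      rw [k3, k2, k1]
      ring
    refine ⟨add (add (del G i u) u r) i k, ⟨fun j hj => ?_, fun j => ?_,
        fun a b ha hb har hbr => ?_⟩, ?_⟩
    · have := k4 j; have := h1 j hj
      have e2 : j ≠ k := fun e => hkR (e ▸ hj)
      simp only [hne j hj, e2, if_false] at *; omega
    · have t := k4 j; have := h2 j
      split_ifs at t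
      all_goals first | omega | (subst_vars; first | omega | contradiction)
    · have := h3 a b ha hb har hbr
      have e1 : a ≠ i := fun e => ha (e ▸ hi)
      have e2 : b ≠ i := fun e => hb (e ▸ hi)
      simp only [add_adj, del_adj]; tauto
    · have := k4 r; simp [hkr.symm] at this; omega
  push Not at c2
  by_cases c3 : ∃ i ∈ R, ∃ j ∈ R, i ≠ j ∧ ¬ G.Adj i j
  · obtain ⟨i, hi, j, hj, hij, hna⟩ := c3
    have hir := hne i hi
    have hjr := hne j hj
    obtain ⟨u, hiu, hru, hur⟩ := exists_nb hir (hbig i hi)
    obtain ⟨w, hjw, hrw, hwr⟩ := exists_nb hjr (hbig j hj)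
    have huR : u ∉ R := fun h => hru (c1 u h)
    have hwR : w ∉ R := fun h => hrw (c1 w h)
    have hui : u ≠ i := hiu.ne.symm
    have huj : u ≠ j := fun e => huR (e ▸ hj)
    have hwi : w ≠ i := fun e => hwR (e ▸ hi)
    have hwj : w ≠ j := fun e => hwR (e ▸ hj)
    have k1 := dg_del hiu
    have a2 : (del G i u).Adj j w := by
      refine ⟨hjw, ?_⟩
      rintro (h | h)
      · exact hij h.1.symm
      · exact huj h.1.symm
    have k2 := dg_del a2
    have a3 : ¬ (del (del G i u) j w).Adj i j := fun h => hna h.1.1
    have k3 := dg_add a3 hij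
    have a4 : ¬ (add (del (del G i u) j w) i j).Adj u r := by
      simp only [add_adj, del_adj]
      rintro (h | ⟨_, h | h⟩)
      · exact hru h.1.1.symm
      · exact hui h.1
      · exact huj h.1
    have k4 := dg_add a4 hur
    have k5 : ∀ x, (dg (add (add (del (del G i u) j w) i j) u r) x : ℤ) =
        dg G x + (if x = r then 1 else 0) - (if x = w then 1 else 0) := by
      intro x
      rw [k4, k3, k2, k1]
      ring
    refine ⟨add (add (del (del G i u) j w) i j) u r, ⟨fun x hx => ?_, fun x => ?_,
        fun a b ha hb har hbr => ?_⟩, ?_⟩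
    · have := k5 x; have := h1 x hx
      have e2 : x ≠ w := fun e => hwR (e ▸ hx)
      simp only [hne x hx, e2, if_false] at *; omega
    · have t := k5 x; have := h2 x
      split_ifs at t
      all_goals first | omega | (subst_vars; first | omega | contradiction)
    · have := h3 a b ha hb har hbr
      have e1 : a ≠ i := fun e => ha (e ▸ hi)
      have e2 : b ≠ i := fun e => hb (e ▸ hi)
      simp only [add_adj, del_adj]; tauto
    · have := k5 r; simp [hwr.symm] at this; omega
  push Not at c3
  exfalso
  set T := insert r R with hT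
  have hcl : ∀ i ∈ T, ∀ j ∈ T, i ≠ j → G.Adj i j := by
    intro i hi j hj hij
    rw [hT, mem_insert] at hi hj
    rcases hi with rfl | hi <;> rcases hj with rfl | hj
    · exact absurd rfl hij
    · exact c1 j hj
    · exact (c1 i hi).symm
    · exact c3 i hi j hj hij
  have hsplit : ∀ i ∈ T, dg G i = R.card + (Tᶜ.filter (fun k => i ∈ nb G k)).card := by
    intro i hi
    have : nb G i = T.erase i ∪ Tᶜ.filter (fun k => i ∈ nb G k) := by
      ext w
      simp only [mem_union, mem_erase, mem_filter, mem_compl, mem_nb]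
      constructor
      · intro h
        by_cases hw : w ∈ T
        · exact Or.inl ⟨h.ne.symm, hw⟩
        · exact Or.inr ⟨hw, h.symm⟩
      · rintro (h | h)
        · exact hcl i hi w h.2 h.1.symm
        · exact h.2.symm
    unfold dg
    rw [this, card_union_of_disjoint, card_erase_of_mem hi, hcard]
    · simp
    · rw [disjoint_left]
      intro w h1 h2
      rw [mem_filter, mem_compl] at h2
      exact h2.1 (mem_of_mem_erase h1)
  have hsum : ∑ i ∈ T, dg G i = (R.card + 1) * R.card + ∑ k ∈ Tᶜ, dg G k := by
    rw [sum_congr rfl hsplit, sum_add_distrib, sum_const, hcard, smul_eq_mul]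
    congr 1
    simp only [card_filter]
    rw [sum_comm]
    refine sum_congr rfl fun k hk => ?_
    rw [← card_filter]
    rw [mem_compl, hT, mem_insert, not_or] at hk
    unfold dg
    congr 1
    ext w
    simp only [mem_filter]
    exact ⟨fun h => h.2, fun h => ⟨hsub k hk.2 hk.1 h, h⟩⟩
  have hge : ∑ k ∈ Tᶜ, min (R.card + 1) (d k) ≤ ∑ k ∈ Tᶜ, dg G k := by
    refine sum_le_sum fun k hk => ?_
    rw [mem_compl, hT, mem_insert, not_or] at hk
    exact c2 k hk.2 hk.1
  have hl : ∑ i ∈ T, dg G i < ∑ i ∈ T, d i :=
    sum_lt_sum (fun i _ => h2 i) ⟨r, mem_insert_self _ _, hlt⟩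
  omega

lemma finish (d : V → ℕ) (hev : Even (∑ v, d v)) (R : Finset V) (r : V) (hr : r ∉ R)
    (htop : ∀ i ∈ R, d r ≤ d i)
    (hEG : ∑ i ∈ insert r R, d i ≤ (R.card + 1) * R.card +
      ∑ i ∈ (insert r R)ᶜ, min (R.card + 1) (d i)) (n : ℕ) :
    ∀ G : SimpleGraph V, Inv d R r G → d r - dg G r ≤ n → ∃ G', Inv d R r G' ∧ dg G' r = d r := by
  induction n with
  | zero => intro G hG h; exact ⟨G, hG, by have := hG.2.1 r; omega⟩
  | succ n ih =>
    intro G hG h
    by_cases hlt : dg G r < d r
    · obtain ⟨G', h1, h2⟩ := improve d hev R r hr htop hEG G hG hlt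
      exact ih G' h1 (by omega)
    · exact ⟨G, hG, by have := hG.2.1 r; omega⟩

/-- Erdos-Gallai, sufficiency -/
theorem erdos_gallai (d : V → ℕ) (hev : Even (∑ v, d v))
    (hEG : ∀ S : Finset V, ∑ i ∈ S, d i ≤ S.card * (S.card - 1) + ∑ i ∈ Sᶜ, min S.card (d i)) :
    ∃ G : SimpleGraph V, ∀ v, dg G v = d v := by
  have main : ∀ n, n ≤ Fintype.card V → ∃ R : Finset V, R.card = n ∧
      (∀ i ∈ R, ∀ j, j ∉ R → d j ≤ d i) ∧ ∃ G : SimpleGraph V,
      (∀ i ∈ R, dg G i = d i) ∧ (∀ i, dg G i ≤ d i) ∧ (∀ i j, i ∉ R → j ∉ R → ¬ G.Adj i j) := by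
    intro n
    induction n with
    | zero =>
      intro _
      refine ⟨∅, rfl, by simp, ⊥, by simp, fun i => ?_, by simp⟩
      have : nb (⊥ : SimpleGraph V) i = ∅ := by ext w; simp [mem_nb]
      simp [dg, this]
    | succ n ih =>
      intro hn
      obtain ⟨R, hc, htop, G, g1, g2, g3⟩ := ih (by omega)
      have hne : (Rᶜ).Nonempty := by
        rw [← card_pos, card_compl]; omega
      obtain ⟨r, hr, hmax⟩ := exists_max_image Rᶜ d hne
      rw [mem_compl] at hr
      have hcard : (insert r R).card = R.card + 1 := card_insert_of_notMem hr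
      have e := hEG (insert r R)
      rw [hcard, Nat.add_sub_cancel] at e
      obtain ⟨G', ⟨k1, k2, k3⟩, k4⟩ := finish d hev R r hr (fun i hi => htop i hi r hr) e _ G
        ⟨g1, g2, fun i j hi hj _ _ => g3 i j hi hj⟩ le_rfl
      refine ⟨insert r R, by omega, ?_, G', ?_, k2, ?_⟩
      · intro i hi j hj
        rw [mem_insert, not_or] at hj
        rw [mem_insert] at hi
        rcases hi with rfl | hi
        · exact hmax j (mem_compl.2 hj.2)
        · exact htop i hi j hj.2
      · intro i hi
        rw [mem_insert] at hi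
        rcases hi with rfl | hi
        · exact k4
        · exact k1 i hi
      · intro i j hi hj
        rw [mem_insert, not_or] at hi hj
        exact k3 i j hi.2 hj.2 hi.1 hj.1
  obtain ⟨R, hc, -, G, g1, -, -⟩ := main _ le_rfl
  have : R = univ := eq_univ_of_card R hc
  exact ⟨G, fun v => g1 v (this ▸ mem_univ v)⟩

/-- it is enough to check sets all of whose values are at least the size of the set -/
theorem erdos_gallai' (d : V → ℕ) (hev : Even (∑ v, d v))
    (hEG : ∀ S : Finset V, S.Nonempty → (∀ i ∈ S, S.card ≤ d i) →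
      ∑ i ∈ S, d i ≤ S.card * (S.card - 1) + ∑ i ∈ Sᶜ, min S.card (d i)) :
    ∃ G : SimpleGraph V, ∀ v, dg G v = d v := by
  refine erdos_gallai d hev fun S => ?_
  induction h : S.card generalizing S with
  | zero => rw [card_eq_zero] at h; subst h; simp
  | succ k ih =>
    by_cases hh : ∀ i ∈ S, S.card ≤ d i
    · have := hEG S (by rw [← card_pos]; omega) hh
      rwa [h] at this
    · push Not at hh
      obtain ⟨s, hs, hd⟩ := hh
      have h1 := ih (S.erase s) (by rw [card_erase_of_mem hs]; omega)
      have e1 : ∑ i ∈ S, d i = d s + ∑ i ∈ S.erase s, d i := (add_sum_erase S d hs).symm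
      have e2 : (S.erase s)ᶜ = insert s Sᶜ := by
        ext w; simp only [mem_compl, mem_erase, mem_insert]; tauto
      rw [e2, sum_insert (by simp [hs])] at h1
      have e3 : ∑ i ∈ Sᶜ, min k (d i) ≤ ∑ i ∈ Sᶜ, min (k + 1) (d i) :=
        sum_le_sum fun i _ => by omega
      have e4 : (k + 1) * (k + 1 - 1) = k * (k - 1) + 2 * k := by
        cases k with
        | zero => simp
        | succ k => simp; ring
      have : min k (d s) ≤ k := min_le_left _ _
      omega

end Pool.Agent.H.MP_440a65_co
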